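import Pool.Agent.Lib.MP_c3d375_an.Neg.H65.Cru

/-!
# CER (paper 2): the basic certificate of a system
-/

set_option autoImplicit false

open Complex Metric Set Filter Topology ComplexConjugate

namespace C3N.H16

open C3N.H65

/-- the lower bound for `Re ⟨(1 + h) n, n⟩` obtained from a positive form `h + 1 + c + k B` -/
theorem lower {H : Type} [NormedAddCommGroup H] [InnerProductSpace ℂ H] {r : ℝ}
    (Φ : Hol r →ₐ[ℂ] (H →L[ℂ] H)) {h B : Hol r} {c k : ℂ} {M : ℝ} {n : H}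
    (hpos : 0 ≤ (inner ℂ n (Φ (h + 1 + (c • (1 : Hol r) + k • B)) n)).re)
    (hM : ‖c‖ + ‖k‖ * ‖Φ B‖ ≤ M) :
    -(M * ‖n‖ ^ 2) ≤ (inner ℂ n (Φ (1 + h) n)).re := by
  have e1 : inner ℂ n (Φ (h + 1 + (c • (1 : Hol r) + k • B)) n) =
      inner ℂ n (Φ (1 + h) n) + (c * inner ℂ n n + k * inner ℂ n (Φ B n)) := by
    rw [add_comm h 1]
    simp only [map_add, map_smul, map_one, ContinuousLinearMap.add_apply,
      ContinuousLinearMap.smul_apply, ContinuousLinearMap.one_apply, inner_add_right,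
      inner_smul_right]
  rw [e1, add_re] at hpos
  have h2 : (c * inner ℂ n n + k * inner ℂ n (Φ B n)).re ≤ M * ‖n‖ ^ 2 := by
    calc (c * inner ℂ n n + k * inner ℂ n (Φ B n)).re
        ≤ ‖c * inner ℂ n n + k * inner ℂ n (Φ B n)‖ := Complex.re_le_norm _
      _ ≤ ‖c * inner ℂ n n‖ + ‖k * inner ℂ n (Φ B n)‖ := norm_add_le _ _
      _ ≤ ‖c‖ * (‖n‖ * ‖n‖) + ‖k‖ * (‖n‖ * (‖Φ B‖ * ‖n‖)) := by
        rw [norm_mul, norm_mul]
        gcongr
        · exact norm_inner_le_norm _ _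
        · exact (norm_inner_le_norm _ _).trans (by gcongr; exact (Φ B).le_opNorm n)
      _ = (‖c‖ + ‖k‖ * ‖Φ B‖) * ‖n‖ ^ 2 := by ring
      _ ≤ M * ‖n‖ ^ 2 := by gcongr
  linarith

theorem kap_bound {a : ℝ} (ha : 1 / 2 ≤ a) (ha1 : a < 1) {ν : ℂ} (hν : ‖ν‖ ≤ 3 / (1 - a)) :
    2 * a * ν.re / (1 - a ^ 2) ≤ 6 / (1 - a) ^ 2 := by
  have h1a : 0 < 1 - a := by linarith
  have h1a2 : 1 - a ≤ 1 - a ^ 2 := by nlinarith
  have ha2 : 0 < 1 - a ^ 2 := by linarith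
  have : ν.re ≤ 3 / (1 - a) := (Complex.re_le_norm _).trans hν
  calc 2 * a * ν.re / (1 - a ^ 2) ≤ 2 * a * (3 / (1 - a)) / (1 - a ^ 2) := by gcongr
    _ ≤ 2 * 1 * (3 / (1 - a)) / (1 - a) := by gcongr
    _ = 6 / (1 - a) ^ 2 := by field_simp; norm_num

/-- CER (Paper 2): the basic certificate for a system. -/
theorem cer_st (hP1 : P1Statement) (hCRU : CRUStatement) (hNU : NUStatement) : CERStatement := by
  intro a ha ha1
  obtain ⟨e1, he1, hP1'⟩ := hP1 a ha ha1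
  obtain ⟨C, hC, e2, he2, hC2⟩ := hCRU a ha ha1
  have hCa := Ca_pos ha1
  have h1a : 0 < 1 - a := by linarith
  set M1 : ℝ := Ca a + 6 / (1 - a) ^ 2 * (4 / (1 - a)) with hM1
  have hM10 : 0 < M1 := by positivity
  set M : ℝ := 22 + C + M1 with hM
  refine ⟨M, by linarith, min 1 (min e1 e2), lt_min one_pos (lt_min he1 he2), ?_⟩
  intro e he hee H _ _ _ r hr hr' S q hq
  have hee0 : e ≤ 1 := (hee.trans_le (min_le_left _ _)).le
  have hee1 : e < e1 := hee.trans_le ((min_le_right _ _).trans (min_le_left _ _))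
  have hee2 : e < e2 := hee.trans_le ((min_le_right _ _).trans (min_le_right _ _))
  have V := val_of_nu hNU ha ha1 hr hr' hq
  obtain ⟨hρ, _, hqh, h1, _, h3, h4, h5, h6, _, hz⟩ := hNU a ha ha1 r hr hr' q hq
  have hP := hP1' e he hee1 H r hr hr' S
  obtain ⟨Δ, hΔ, hacc⟩ := hC2 e he hee2 H r hr hr' S (qh q) (fun z h => ⟨V.hre z h, V.hsq z h⟩)
  have hsub : ∀ z ∈ closedBall (0 : ℂ) 1, z ∈ ball (0 : ℂ) r := fun z h =>
    closedBall_subset_ball hr h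
  have hne1 : ∀ z ∈ ball (0 : ℂ) r, 1 + (fn (qh q) z) ^ 2 ≠ 0 := by
    intro z hz h0
    have h9 := congrArg Complex.re h0
    simp only [add_re, one_re, zero_re] at h9
    have := V.hsq z hz
    linarith
  have hhne : ∀ z ∈ ball (0 : ℂ) r, fn (qh q) z ≠ 0 := by
    intro z hz h0
    have := V.hre z hz
    rw [h0] at this
    simp at this
  have hj : jj q * (1 + qh q ^ 2) = 1 := by
    apply hol_ext
    intro z hz
    rw [fn_mul, fn_add, fn_one hz, fn_pow _ _ hz, V.hj z hz, inv_mul_cancel₀ (hne1 z hz)]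
  have hqi : qh q * qi q = 1 := by
    apply hol_ext
    intro z hz
    rw [fn_mul, fn_one hz, V.hqi z hz, mul_inv_cancel₀ (hhne z hz)]
  -- norms
  have n1 : ‖S.Φ (jj q)‖ ≤ 11 * 1 := hP _ 1 fun z hz => by
    have hz' := hsub z hz
    rw [V.hj z hz']
    exact (norm_j_le (V.hsq z hz')).1
  have n2 : ‖S.Φ (qh q ^ 2 * jj q)‖ ≤ 11 * 1 := hP _ 1 fun z hz => by
    have hz' := hsub z hz
    rw [fn_mul, fn_pow _ _ hz', V.hj z hz']
    exact (norm_j_le (V.hsq z hz')).2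
  have n3 : ‖S.Φ (qh q * jj q)‖ ≤ 11 * 1 := hP _ 1 fun z hz => by
    have hz' := hsub z hz
    rw [fn_mul, V.hj z hz']
    obtain ⟨p1, p2⟩ := norm_j_le (V.hsq z hz')
    have p3 : ‖fn (qh q) z * (1 + (fn (qh q) z) ^ 2)⁻¹‖ ^ 2 ≤ 1 := by
      rw [norm_mul] at p2
      rw [norm_mul, mul_pow, ← norm_pow]
      calc ‖fn (qh q) z ^ 2‖ * ‖(1 + fn (qh q) z ^ 2)⁻¹‖ ^ 2
          = (‖fn (qh q) z ^ 2‖ * ‖(1 + fn (qh q) z ^ 2)⁻¹‖) * ‖(1 + fn (qh q) z ^ 2)⁻¹‖ := by ring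
        _ ≤ 1 * 1 := mul_le_mul p2 p1 (norm_nonneg _) zero_le_one
        _ = 1 := one_mul 1
    have p0 := norm_nonneg (fn (qh q) z * (1 + (fn (qh q) z) ^ 2)⁻¹)
    nlinarith
  have n4 : ‖S.Φ (qh q)‖ ≤ 11 * (2 / rho q) := hP _ _ fun z hz => by
    have hz' := hsub z hz
    rw [hqh z, norm_mul, norm_inv, Complex.norm_real, Real.norm_eq_abs, abs_of_pos hρ,
      inv_mul_eq_div]
    have := hq.bdd z hz
    have h8 : ‖fn q z‖ ≤ 2 := by nlinarith [norm_nonneg (fn q z)]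
    gcongr
  have hnB := S.nB
  have hce : ‖((Ca a * e ^ 2 : ℝ) : ℂ)‖ ≤ Ca a * e := by
    rw [Complex.norm_real, Real.norm_eq_abs, abs_of_nonneg (by positivity)]
    have : 0 ≤ Ca a * e := by positivity
    nlinarith
  have hk : ∀ κ : ℂ, ‖κ‖ ≤ 6 / (1 - a) ^ 2 →
      ‖((Ca a * e ^ 2 : ℝ) : ℂ)‖ + ‖(e : ℂ) * κ‖ * ‖S.Φ (Bf a r)‖ ≤ M1 * e := by
    intro κ hκ
    rw [norm_mul, Complex.norm_real e, Real.norm_eq_abs, abs_of_pos he]
    calc ‖((Ca a * e ^ 2 : ℝ) : ℂ)‖ + e * ‖κ‖ * ‖S.Φ (Bf a r)‖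
        ≤ Ca a * e + e * (6 / (1 - a) ^ 2) * (4 / (1 - a)) := by gcongr
      _ = M1 * e := by rw [hM1]; ring
  -- Berger type bounds
  have b1 : ∀ x : H, -(M1 * e * ‖x‖ ^ 2) ≤ (inner ℂ x (S.Φ (1 + qh q ^ 2) x)).re := by
    intro x
    have hp := pos1 hNU ha ha1 hr hr' S hq x
    rw [mu1] at hp
    exact lower S.Φ hp (hk _ (h5.trans (kap_bound ha ha1 h3)))
  have b2 : ∀ x : H, -(M1 * e * ‖x‖ ^ 2) ≤ (inner ℂ x (S.Φ (1 + qi q ^ 2) x)).re := by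
    intro x
    have hp := pos2 hNU ha ha1 hr hr' S hq x
    have hmu : mu2 q a e = ((Ca a * e ^ 2 : ℝ) : ℂ) • (1 : Hol r) +
        ((e : ℂ) * (-(kap q a * (nu q a)⁻¹ ^ 2))) • Bf a r := by
      rw [mu2, mul_neg, neg_smul, sub_eq_add_neg]
    rw [hmu] at hp
    refine lower S.Φ hp (hk _ ?_)
    rw [norm_neg]
    exact h6.trans (kap_bound ha ha1 h4)
  have hM1M : M1 * e ≤ M * e := by
    have : M1 ≤ M := by linarith
    gcongr
  -- inversion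
  have inv1 : ∀ (p j : Hol r), p * j = 1 → (∀ x : H, -(M1 * e * ‖x‖ ^ 2) ≤
      (inner ℂ x (S.Φ p x)).re) → ∀ x : H, -(M * e * ‖S.Φ j x‖ ^ 2) ≤
      (inner ℂ x (S.Φ j x)).re := by
    intro p j hpj hp x
    have h7 : S.Φ p (S.Φ j x) = x := by
      rw [← ContinuousLinearMap.mul_apply, ← map_mul, hpj, map_one, ContinuousLinearMap.one_apply]
    have h8 := hp (S.Φ j x)
    rw [h7, ← inner_conj_symm, conj_re] at h8
    have h9 : M1 * e * ‖S.Φ j x‖ ^ 2 ≤ M * e * ‖S.Φ j x‖ ^ 2 := by gcongr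
    linarith
  refine ⟨Δ, hj, by linarith, by linarith, by linarith, ?_, ?_, hacc, ?_, ?_, ?_⟩
  · calc ‖S.Φ (qh q)‖ ≤ 11 * (2 / rho q) := n4
      _ = 22 / rho q := by ring
      _ ≤ M / rho q := by gcongr; linarith
  · calc ‖S.Φ Δ‖ ≤ C * e := hΔ
      _ ≤ M * e := by gcongr; linarith
  · intro x
    have := b1 x
    have h9 : M1 * e * ‖x‖ ^ 2 ≤ M * e * ‖x‖ ^ 2 := by gcongr
    linarith
  · exact inv1 (1 + qh q ^ 2) (jj q) (by rw [mul_comm]; exact hj) b1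
  · refine inv1 (1 + qi q ^ 2) (qh q ^ 2 * jj q) ?_ b2
    calc (1 + qi q ^ 2) * (qh q ^ 2 * jj q) = jj q * (qh q ^ 2 + (qh q * qi q) ^ 2) := by ring
      _ = jj q * (1 + qh q ^ 2) := by rw [hqi]; ring
      _ = 1 := hj

end C3N.H16
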